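import Pool.Agent.Lib_helper89.MC.EN

/-! Project MC (MP_b08f5f_an), block CX: the logarithmic energy is convex. -/

set_option autoImplicit false

namespace Pool.Agent.Lib_helper68.MC

open MeasureTheory Filter Topology Set

noncomputable section

/-- the Gaussian kernel as a convolution -/
theorem CX_conv {t : ℝ} (x y : ℂ) :
    ∫ w : ℂ, Real.exp (-(2 * t) * ‖x - w‖ ^ 2) * Real.exp (-(2 * t) * ‖y - w‖ ^ 2) =
      (∫ w : ℂ, Real.exp (-(4 * t) * ‖w‖ ^ 2)) * Real.exp (-t * ‖x - y‖ ^ 2) := by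
  rw [← integral_mul_const]
  rw [← integral_sub_right_eq_self (fun w : ℂ => Real.exp (-(4 * t) * ‖w‖ ^ 2) *
    Real.exp (-t * ‖x - y‖ ^ 2)) ((x + y) / 2)]
  refine integral_congr_ae (Eventually.of_forall fun w => ?_)
  simp only
  rw [← Real.exp_add, ← Real.exp_add]
  congr 1
  simp only [Complex.sq_norm, Complex.normSq_apply, Complex.sub_re, Complex.sub_im]
  have e1 : ((x + y) / 2).re = (x.re + y.re) / 2 := by
    rw [show (2 : ℂ) = ((2 : ℝ) : ℂ) by norm_num, Complex.div_ofReal_re]; simp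
  have e2 : ((x + y) / 2).im = (x.im + y.im) / 2 := by
    rw [show (2 : ℂ) = ((2 : ℝ) : ℂ) by norm_num, Complex.div_ofReal_im]; simp
  rw [e1, e2]
  ring

theorem CX_gint {b : ℝ} (hb : 0 < b) : Integrable fun w : ℂ => Real.exp (-b * ‖w‖ ^ 2) := by
  by_contra h
  have h1 := GaussianFourier.integral_rexp_neg_mul_sq_norm (V := ℂ) hb
  rw [integral_undef h] at h1
  have : (0 : ℝ) < (Real.pi / b) ^ (Module.finrank ℝ ℂ / 2 : ℝ) := by positivity
  linarith

theorem CX_gpos {b : ℝ} (hb : 0 < b) : 0 < ∫ w : ℂ, Real.exp (-b * ‖w‖ ^ 2) := by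
  rw [GaussianFourier.integral_rexp_neg_mul_sq_norm (V := ℂ) hb]
  positivity

theorem CX_cint {t : ℝ} (ht : 0 < t) (x y : ℂ) :
    Integrable fun w : ℂ =>
      Real.exp (-(2 * t) * ‖x - w‖ ^ 2) * Real.exp (-(2 * t) * ‖y - w‖ ^ 2) := by
  by_contra h
  have h1 := CX_conv (t := t) x y
  rw [integral_undef h] at h1
  have h2 := CX_gpos (b := 4 * t) (by positivity)
  have h3 := Real.exp_pos (-t * ‖x - y‖ ^ 2)
  have := mul_pos h2 h3
  linarith

/-- positive definiteness of the Gaussian kernel -/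
theorem CX_gauss {σ : ℂ → ℝ} (hm : Measurable σ) (hσ : Integrable σ) {t : ℝ} (ht : 0 < t) :
    0 ≤ ∫ p : ℂ × ℂ, Real.exp (-t * ‖p.1 - p.2‖ ^ 2) * (σ p.1 * σ p.2) := by
  set c : ℝ := ∫ w : ℂ, Real.exp (-(4 * t) * ‖w‖ ^ 2) with hc
  have hcpos : 0 < c := CX_gpos (by positivity)
  have hG : Integrable fun p : ℂ × ℂ => σ p.1 * σ p.2 := hσ.mul_prod hσ
  let F : ℂ × ℂ → ℂ → ℝ := fun p w =>
    Real.exp (-(2 * t) * ‖p.1 - w‖ ^ 2) * Real.exp (-(2 * t) * ‖p.2 - w‖ ^ 2) *
      (σ p.1 * σ p.2)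
  have hFm : Measurable (Function.uncurry F) := by
    simp only [F, Function.uncurry_def]
    fun_prop
  have hinner : ∀ p : ℂ × ℂ, ∫ w, F p w =
      c * (Real.exp (-t * ‖p.1 - p.2‖ ^ 2) * (σ p.1 * σ p.2)) := by
    intro p
    simp only [F]
    rw [integral_mul_const, CX_conv]
    ring
  have hint : Integrable (Function.uncurry F) (volume.prod volume) := by
    rw [integrable_prod_iff hFm.aestronglyMeasurable]
    refine ⟨Eventually.of_forall fun p => ?_, ?_⟩
    · exact (CX_cint ht p.1 p.2).mul_const (σ p.1 * σ p.2)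
    · have : (fun p : ℂ × ℂ => ∫ w, ‖Function.uncurry F (p, w)‖) = fun p =>
          (c * Real.exp (-t * ‖p.1 - p.2‖ ^ 2)) * |σ p.1 * σ p.2| := by
        funext p
        have : (fun w => ‖Function.uncurry F (p, w)‖) = fun w =>
            Real.exp (-(2 * t) * ‖p.1 - w‖ ^ 2) * Real.exp (-(2 * t) * ‖p.2 - w‖ ^ 2) *
              |σ p.1 * σ p.2| := by
          funext w
          simp only [F, Function.uncurry_def, Real.norm_eq_abs]
          rw [abs_mul, abs_of_pos (mul_pos (Real.exp_pos _) (Real.exp_pos _))]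
        rw [this, integral_mul_const, CX_conv]
      rw [this]
      refine Integrable.mono' (hG.abs.const_mul c) ?_ (Eventually.of_forall fun p => ?_)
      · refine Measurable.aestronglyMeasurable ?_
        fun_prop
      · rw [Real.norm_eq_abs, abs_mul, abs_abs, abs_of_nonneg (by positivity)]
        refine mul_le_mul_of_nonneg_right ?_ (abs_nonneg _)
        calc c * Real.exp (-t * ‖p.1 - p.2‖ ^ 2) ≤ c * 1 := by
              refine mul_le_mul_of_nonneg_left ?_ hcpos.le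
              rw [Real.exp_le_one_iff]
              have := sq_nonneg ‖p.1 - p.2‖
              nlinarith
          _ = c := mul_one _
  have hswap := integral_integral_swap hint
  have h1 : ∫ p : ℂ × ℂ, ∫ w, F p w =
      c * ∫ p : ℂ × ℂ, Real.exp (-t * ‖p.1 - p.2‖ ^ 2) * (σ p.1 * σ p.2) := by
    rw [← integral_const_mul]
    exact integral_congr_ae (Eventually.of_forall hinner)
  have h2 : 0 ≤ ∫ w, ∫ p : ℂ × ℂ, F p w := by
    refine integral_nonneg fun w => ?_
    have : ∫ p : ℂ × ℂ, F p w =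
        (∫ x, Real.exp (-(2 * t) * ‖x - w‖ ^ 2) * σ x) *
          ∫ x, Real.exp (-(2 * t) * ‖x - w‖ ^ 2) * σ x := by
      rw [← integral_prod_mul]
      refine integral_congr_ae (Eventually.of_forall fun p => ?_)
      simp only [F]
      ring
    simp only [Pi.zero_apply]
    rw [this]
    exact mul_self_nonneg _
  rw [← hswap, h1] at h2
  exact nonneg_of_mul_nonneg_right h2 hcpos

/-- the approximations of `2 log u` -/
def CX_K (n : ℕ) (u : ℝ) : ℝ :=
  ∫ t in ((n : ℝ) + 1)⁻¹..((n : ℝ) + 1), t⁻¹ * (Real.exp (-(1 * t)) - Real.exp (-(u ^ 2 * t)))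

theorem CX_lim {u : ℝ} (hu : 0 < u) :
    Tendsto (fun n : ℕ => CX_K n u) atTop (𝓝 (2 * Real.log u)) := by
  have hf : LocallyIntegrableOn (fun x : ℝ => Real.exp (-x)) (Ioi 0) := by
    refine (Continuous.locallyIntegrable (by fun_prop)).locallyIntegrableOn _
  have hL : Tendsto (fun x : ℝ => Real.exp (-x)) (𝓝[>] 0) (𝓝 1) := by
    have : Tendsto (fun x : ℝ => Real.exp (-x)) (𝓝 0) (𝓝 (Real.exp (-0))) :=
      (Continuous.tendsto (by fun_prop) 0)
    rw [neg_zero, Real.exp_zero] at this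
    exact this.mono_left nhdsWithin_le_nhds
  have hR : Tendsto (fun x : ℝ => Real.exp (-x)) atTop (𝓝 0) :=
    Real.tendsto_exp_neg_atTop_nhds_zero
  have h := Frullani.tendsto_intervalIntegral (a := 1) (b := u ^ 2) hf one_pos (by positivity)
    hL hR
  have hp : Tendsto (fun n : ℕ => (((n : ℝ) + 1)⁻¹, ((n : ℝ) + 1))) atTop
      ((𝓝[>] (0 : ℝ)) ×ˢ atTop) := by
    refine Tendsto.prodMk ?_ ?_
    · refine tendsto_nhdsWithin_iff.2 ⟨?_, Eventually.of_forall fun n => ?_⟩
      · exact (tendsto_inv_atTop_zero.comp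
          (tendsto_natCast_atTop_atTop.atTop_add tendsto_const_nhds))
      · simp only [mem_Ioi]; positivity
    · exact tendsto_natCast_atTop_atTop.atTop_add tendsto_const_nhds
  have h2 := h.comp hp
  have e : Real.log (u ^ 2 / 1) • ((1 : ℝ) - 0) = 2 * Real.log u := by
    rw [div_one, Real.log_pow, smul_eq_mul]; push_cast; ring
  rw [e] at h2
  exact h2

theorem CX_ii (u : ℝ) {a b : ℝ} (ha : 0 < a) (hab : a ≤ b) : IntervalIntegrable
    (fun t : ℝ => t⁻¹ * (Real.exp (-(1 * t)) - Real.exp (-(u ^ 2 * t)))) volume a b := by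
  refine ContinuousOn.intervalIntegrable ?_
  refine ContinuousOn.mul ?_ (by fun_prop)
  refine continuousOn_id.inv₀ fun t ht => ?_
  rw [uIcc_of_le hab] at ht
  exact (lt_of_lt_of_le ha ht.1).ne'

theorem CX_bound {u : ℝ} (hu : 0 < u) (n : ℕ) : |CX_K n u| ≤ 2 * |Real.log u| := by
  have hn0 : ∀ n : ℕ, (0 : ℝ) < ((n : ℝ) + 1)⁻¹ := fun n => by positivity
  have hn1 : ∀ n : ℕ, ((n : ℝ) + 1)⁻¹ ≤ (n : ℝ) + 1 := fun n => by
    have : (1 : ℝ) ≤ (n : ℝ) + 1 := by linarith [(Nat.cast_nonneg n : (0 : ℝ) ≤ n)]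
    exact (inv_le_one_of_one_le₀ this).trans this
  have hmm : ∀ {m n : ℕ}, m ≤ n → ((n : ℝ) + 1)⁻¹ ≤ ((m : ℝ) + 1)⁻¹ := fun {m n} h => by
    have : (m : ℝ) ≤ n := by exact_mod_cast h
    exact inv_anti₀ (by positivity) (by linarith)
  rcases le_total 1 u with h1 | h1
  · have hnn : ∀ t : ℝ, 0 < t → 0 ≤ t⁻¹ * (Real.exp (-(1 * t)) - Real.exp (-(u ^ 2 * t))) := by
      intro t ht
      refine mul_nonneg (by positivity) (sub_nonneg.2 (Real.exp_le_exp.2 ?_))
      have : 1 ≤ u ^ 2 := by nlinarith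
      nlinarith
    have hmono : Monotone fun n : ℕ => CX_K n u := by
      intro m n hmn
      refine intervalIntegral.integral_mono_interval (hmm hmn) (hn1 m) ?_ ?_
        (CX_ii u (hn0 n) (hn1 n))
      · have : (m : ℝ) ≤ n := by exact_mod_cast hmn
        linarith
      · refine (ae_restrict_iff' measurableSet_Ioc).2 (Eventually.of_forall fun t ht => ?_)
        exact hnn t ((hn0 n).trans ht.1)
    have h2 := hmono.ge_of_tendsto (CX_lim hu) n
    have h3 : 0 ≤ CX_K n u := by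
      refine intervalIntegral.integral_nonneg (hn1 n) fun t ht => ?_
      exact hnn t (lt_of_lt_of_le (hn0 n) ht.1)
    rw [abs_of_nonneg h3, abs_of_nonneg (Real.log_nonneg h1)]
    exact h2
  · have hnn : ∀ t : ℝ, 0 < t → t⁻¹ * (Real.exp (-(1 * t)) - Real.exp (-(u ^ 2 * t))) ≤ 0 := by
      intro t ht
      refine mul_nonpos_of_nonneg_of_nonpos (by positivity)
        (sub_nonpos.2 (Real.exp_le_exp.2 ?_))
      have : u ^ 2 ≤ 1 := by nlinarith
      nlinarith
    have hanti : Monotone fun n : ℕ => -CX_K n u := by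
      intro m n hmn
      simp only [CX_K]
      rw [← intervalIntegral.integral_neg, ← intervalIntegral.integral_neg]
      refine intervalIntegral.integral_mono_interval (hmm hmn) (hn1 m) ?_ ?_
        (CX_ii u (hn0 n) (hn1 n)).neg
      · have : (m : ℝ) ≤ n := by exact_mod_cast hmn
        linarith
      · refine (ae_restrict_iff' measurableSet_Ioc).2 (Eventually.of_forall fun t ht => ?_)
        exact neg_nonneg.2 (hnn t ((hn0 n).trans ht.1))
    have h2 := hanti.ge_of_tendsto (CX_lim hu).neg n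
    have h3 : 0 ≤ -CX_K n u := by
      simp only [CX_K]
      rw [← intervalIntegral.integral_neg]
      refine intervalIntegral.integral_nonneg (hn1 n) fun t ht => ?_
      exact neg_nonneg.2 (hnn t (lt_of_lt_of_le (hn0 n) ht.1))
    rw [abs_of_nonpos (by linarith), abs_of_nonpos (Real.log_nonpos hu.le h1)]
    linarith

theorem CX_step {σ : ℂ → ℝ} (hm : Measurable σ) (hσ : Integrable σ) (h0 : ∫ x, σ x = 0)
    (n : ℕ) : ∫ p : ℂ × ℂ, CX_K n ‖p.1 - p.2‖ * (σ p.1 * σ p.2) ≤ 0 := by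
  set a : ℝ := ((n : ℝ) + 1)⁻¹ with ha
  set b : ℝ := (n : ℝ) + 1 with hb
  have ha0 : 0 < a := by positivity
  have hab : a ≤ b := by
    have : (1 : ℝ) ≤ (n : ℝ) + 1 := by linarith [(Nat.cast_nonneg n : (0 : ℝ) ≤ n)]
    exact (inv_le_one_of_one_le₀ this).trans this
  have hG : Integrable fun p : ℂ × ℂ => σ p.1 * σ p.2 := hσ.mul_prod hσ
  have hG0 : ∫ p : ℂ × ℂ, σ p.1 * σ p.2 = 0 := by
    rw [show (volume : Measure (ℂ × ℂ)) = volume.prod volume from rfl, integral_prod_mul, h0,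
      mul_zero]
  let f : ℝ → ℂ × ℂ → ℝ := fun t p =>
    t⁻¹ * (Real.exp (-(1 * t)) - Real.exp (-(‖p.1 - p.2‖ ^ 2 * t))) * (σ p.1 * σ p.2)
  have hfm : Measurable (Function.uncurry f) := by
    simp only [f, Function.uncurry_def]
    fun_prop
  have hint : Integrable (Function.uncurry f) ((volume.restrict (uIoc a b)).prod volume) := by
    have hc : Integrable (fun _ : ℝ => a⁻¹) (volume.restrict (uIoc a b)) := by
      rw [uIoc_of_le hab]
      exact integrable_const _
    have hmaj := hc.mul_prod hG.abs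
    refine Integrable.mono' hmaj hfm.aestronglyMeasurable ?_
    have : ∀ᵐ z ∂((volume.restrict (uIoc a b)).prod (volume : Measure (ℂ × ℂ))),
        z.1 ∈ uIoc a b := by
      have h1 : ∀ᵐ t ∂(volume.restrict (uIoc a b)), t ∈ uIoc a b :=
        ae_restrict_mem measurableSet_uIoc
      exact Measure.quasiMeasurePreserving_fst.ae h1
    filter_upwards [this] with z hz
    rw [uIoc_of_le hab] at hz
    obtain ⟨t, p⟩ := z
    simp only at hz
    simp only [f, Function.uncurry_def, Real.norm_eq_abs]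
    rw [abs_mul, abs_mul]
    have ht : 0 < t := ha0.trans hz.1
    refine mul_le_mul_of_nonneg_right ?_ (abs_nonneg _)
    rw [abs_of_pos (inv_pos.2 ht)]
    calc t⁻¹ * |Real.exp (-(1 * t)) - Real.exp (-(‖p.1 - p.2‖ ^ 2 * t))| ≤ t⁻¹ * 1 := by
          refine mul_le_mul_of_nonneg_left ?_ (inv_pos.2 ht).le
          have h1 : Real.exp (-(1 * t)) ≤ 1 := by rw [Real.exp_le_one_iff]; linarith
          have h2 : Real.exp (-(‖p.1 - p.2‖ ^ 2 * t)) ≤ 1 := by
            rw [Real.exp_le_one_iff]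
            have := mul_nonneg (sq_nonneg ‖p.1 - p.2‖) ht.le
            linarith
          have h3 := Real.exp_pos (-(1 * t))
          have h4 := Real.exp_pos (-(‖p.1 - p.2‖ ^ 2 * t))
          rw [abs_le]
          constructor <;> linarith
      _ ≤ a⁻¹ := by
          rw [mul_one]
          exact inv_anti₀ ha0 hz.1.le
  have hsw := intervalIntegral_integral_swap hint
  have e1 : ∫ p : ℂ × ℂ, CX_K n ‖p.1 - p.2‖ * (σ p.1 * σ p.2) =
      ∫ p : ℂ × ℂ, ∫ t in a..b, f t p := by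
    refine integral_congr_ae (Eventually.of_forall fun p => ?_)
    simp only [CX_K, f]
    rw [intervalIntegral.integral_mul_const]
  rw [e1, ← hsw]
  have hneg : ∀ t ∈ Icc a b, ∫ p : ℂ × ℂ, f t p ≤ 0 := by
    intro t ht
    have ht0 : 0 < t := lt_of_lt_of_le ha0 ht.1
    have hE : Integrable fun p : ℂ × ℂ =>
        Real.exp (-t * ‖p.1 - p.2‖ ^ 2) * (σ p.1 * σ p.2) := by
      refine Integrable.mono' hG.abs ?_ (Eventually.of_forall fun p => ?_)
      · refine Measurable.aestronglyMeasurable ?_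
        fun_prop
      · rw [Real.norm_eq_abs, abs_mul, abs_of_pos (Real.exp_pos _)]
        refine mul_le_of_le_one_left (abs_nonneg _) ?_
        rw [Real.exp_le_one_iff]
        have := mul_nonneg ht0.le (sq_nonneg ‖p.1 - p.2‖)
        linarith
    have : ∫ p : ℂ × ℂ, f t p = t⁻¹ * (Real.exp (-(1 * t)) * (∫ p : ℂ × ℂ, σ p.1 * σ p.2) -
        ∫ p : ℂ × ℂ, Real.exp (-t * ‖p.1 - p.2‖ ^ 2) * (σ p.1 * σ p.2)) := by
      rw [← integral_const_mul, ← integral_sub (hG.const_mul _) hE, ← integral_const_mul]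
      refine integral_congr_ae (Eventually.of_forall fun p => ?_)
      simp only [f]
      rw [show -(‖p.1 - p.2‖ ^ 2 * t) = -t * ‖p.1 - p.2‖ ^ 2 by ring]
      ring
    rw [this, hG0, mul_zero, zero_sub]
    have h1 := CX_gauss hm hσ ht0
    have h2 := inv_pos.2 ht0
    nlinarith
  have h3 : 0 ≤ ∫ t in a..b, -∫ p : ℂ × ℂ, f t p :=
    intervalIntegral.integral_nonneg hab fun t ht => neg_nonneg.2 (hneg t ht)
  rw [intervalIntegral.integral_neg] at h3
  linarith

theorem CX_diag : ∀ᵐ p : ℂ × ℂ, p.1 ≠ p.2 := by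
  rw [ae_iff]
  simp only [not_not]
  have hmeas : MeasurableSet {p : ℂ × ℂ | p.1 = p.2} :=
    measurableSet_eq_fun measurable_fst measurable_snd
  rw [show (volume : Measure (ℂ × ℂ)) = volume.prod volume from rfl,
    Measure.measure_prod_null hmeas]
  refine Eventually.of_forall fun x => ?_
  have : Prod.mk x ⁻¹' {p : ℂ × ℂ | p.1 = p.2} = {x} := by
    ext y
    exact eq_comm
  show volume (Prod.mk x ⁻¹' {p : ℂ × ℂ | p.1 = p.2}) = 0
  rw [this]
  simp

theorem CX_core {σ : ℂ → ℝ} (hm : Measurable σ) (hσ : Integrable σ) (h0 : ∫ x, σ x = 0)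
    (hl : Integrable fun p : ℂ × ℂ => Real.log ‖p.1 - p.2‖ * (σ p.1 * σ p.2)) :
    ∫ p : ℂ × ℂ, Real.log ‖p.1 - p.2‖ * (σ p.1 * σ p.2) ≤ 0 := by
  have hG : Integrable fun p : ℂ × ℂ => σ p.1 * σ p.2 := hσ.mul_prod hσ
  have hKm : ∀ n : ℕ, AEStronglyMeasurable
      (fun p : ℂ × ℂ => CX_K n ‖p.1 - p.2‖ * (σ p.1 * σ p.2)) volume := by
    intro n
    refine AEStronglyMeasurable.mul ?_ hG.aestronglyMeasurable
    have hc : Measurable (CX_K n) := by
      unfold CX_K
      have : ((n : ℝ) + 1)⁻¹ ≤ (n : ℝ) + 1 := by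
        have : (1 : ℝ) ≤ (n : ℝ) + 1 := by linarith [(Nat.cast_nonneg n : (0 : ℝ) ≤ n)]
        exact (inv_le_one_of_one_le₀ this).trans this
      simp only [intervalIntegral.integral_of_le this]
      refine StronglyMeasurable.measurable ?_
      refine StronglyMeasurable.integral_prod_right ?_
      refine Measurable.stronglyMeasurable ?_
      simp only [Function.uncurry_def]
      fun_prop
    refine Measurable.aestronglyMeasurable ?_
    exact hc.comp (by fun_prop)
  have hlim := tendsto_integral_of_dominated_convergence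
    (F := fun (n : ℕ) (p : ℂ × ℂ) => CX_K n ‖p.1 - p.2‖ * (σ p.1 * σ p.2))
    (f := fun p : ℂ × ℂ => 2 * Real.log ‖p.1 - p.2‖ * (σ p.1 * σ p.2))
    (fun p => 2 * |Real.log ‖p.1 - p.2‖ * (σ p.1 * σ p.2)|) hKm (hl.abs.const_mul 2) ?_ ?_
  · have h1 : ∫ p : ℂ × ℂ, 2 * Real.log ‖p.1 - p.2‖ * (σ p.1 * σ p.2) ≤ 0 :=
      le_of_tendsto hlim (Eventually.of_forall fun n => CX_step hm hσ h0 n)
    have h2 : ∫ p : ℂ × ℂ, 2 * Real.log ‖p.1 - p.2‖ * (σ p.1 * σ p.2) =
        2 * ∫ p : ℂ × ℂ, Real.log ‖p.1 - p.2‖ * (σ p.1 * σ p.2) := by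
      rw [← integral_const_mul]
      refine integral_congr_ae (Eventually.of_forall fun p => ?_)
      simp only
      ring
    linarith
  · intro n
    filter_upwards [CX_diag] with p hp
    rw [Real.norm_eq_abs, abs_mul, abs_mul (Real.log _), ← mul_assoc]
    exact mul_le_mul_of_nonneg_right (CX_bound (norm_pos_iff.2 (sub_ne_zero.2 hp)) n)
      (abs_nonneg _)
  · filter_upwards [CX_diag] with p hp
    exact (CX_lim (norm_pos_iff.2 (sub_ne_zero.2 hp))).mul_const _

/-- the logarithmic energy is convex on probability densities -/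
theorem CX_mid {ρ ρ' : ℂ → ℝ} (h : Dens ρ) (h' : Dens ρ') :
    2 * En ρ ρ' ≤ En ρ ρ + En ρ' ρ' := by
  have i1 := EN_int h h
  have i2 := EN_int h h'
  have i3 := EN_int h' h
  have i4 := EN_int h' h'
  set σ : ℂ → ℝ := fun x => ρ x - ρ' x with hσ
  have e : (fun p : ℂ × ℂ => Real.log ‖p.1 - p.2‖ * (σ p.1 * σ p.2)) = fun p =>
      ((Real.log ‖p.1 - p.2‖ * (ρ p.1 * ρ p.2) - Real.log ‖p.1 - p.2‖ * (ρ p.1 * ρ' p.2)) -
        Real.log ‖p.1 - p.2‖ * (ρ' p.1 * ρ p.2)) + Real.log ‖p.1 - p.2‖ * (ρ' p.1 * ρ' p.2) := by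
    funext p
    simp only [hσ]
    ring
  have h0 : ∫ x, σ x = 0 := by
    simp only [hσ]
    rw [integral_sub h.int h'.int, h.one, h'.one, sub_self]
  have hl : Integrable fun p : ℂ × ℂ => Real.log ‖p.1 - p.2‖ * (σ p.1 * σ p.2) := by
    rw [e]
    exact ((i1.sub i2).sub i3).add i4
  have hc := CX_core (σ := σ) (h.meas.sub h'.meas) (h.int.sub h'.int) h0 hl
  have j1 := integral_sub i1 i2
  have j2 := integral_sub (i1.sub i2) i3
  have j3 := integral_add ((i1.sub i2).sub i3) i4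
  simp only [Pi.sub_apply] at j1 j2 j3
  rw [e, j3, j2, j1] at hc
  have hs : En ρ ρ' = En ρ' ρ := EN_symm ρ ρ'
  have hpi : 0 < 1 / (4 * Real.pi) := by positivity
  have key := mul_nonpos_of_nonneg_of_nonpos hpi.le hc
  have s2 := hs
  simp only [En] at s2 ⊢
  have e5 : -(1 / (4 * Real.pi)) * ∫ p : ℂ × ℂ, Real.log ‖p.1 - p.2‖ * (ρ' p.1 * ρ p.2) =
      -(1 / (4 * Real.pi)) * ∫ p : ℂ × ℂ, Real.log ‖p.1 - p.2‖ * (ρ p.1 * ρ' p.2) := s2.symm
  linarith

end

end Pool.Agent.Lib_helper68.MC
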